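import Pool.Agent.Q83.BL.Stm

set_option autoImplicit false

open MeasureTheory Complex

noncomputable section

namespace Q83.BL

private lemma arg_small {w : ℂ} (h : ‖w - 1‖ < 1 / 2) : |arg w| < Real.pi / 4 := by
  have hre : |(w - 1).re| < 1 / 2 := lt_of_le_of_lt (Complex.abs_re_le_norm _) h
  have him : |(w - 1).im| < 1 / 2 := lt_of_le_of_lt (Complex.abs_im_le_norm _) h
  simp only [sub_re, one_re, sub_im, one_im, sub_zero] at hre him
  rw [abs_lt] at hre him
  have hr : 0 < w.re := by linarith [hre.1]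
  have hlt : |arg w| < Real.pi / 2 := by
    rw [Complex.abs_arg_lt_pi_div_two_iff]
    exact Or.inl hr
  rw [abs_lt] at hlt
  have ht : Real.tan (arg w) = w.im / w.re := Complex.tan_arg w
  have h1 : Real.tan (arg w) < 1 := by
    rw [ht, div_lt_one hr]; linarith [hre.1, him.2]
  have h2 : -1 < Real.tan (arg w) := by
    rw [ht, lt_div_iff₀ hr]; linarith [hre.1, him.1]
  rw [abs_lt]
  have hp := Real.pi_pos
  constructor
  · by_contra hc
    push Not at hc
    have h3 : Real.tan (arg w) ≤ Real.tan (-(Real.pi / 4)) :=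
      Real.strictMonoOn_tan.monotoneOn ⟨by linarith [hlt.1], by linarith [hlt.2]⟩
        ⟨by linarith, by linarith⟩ hc
    rw [Real.tan_neg, Real.tan_pi_div_four] at h3
    linarith
  · by_contra hc
    push Not at hc
    have h3 : Real.tan (Real.pi / 4) ≤ Real.tan (arg w) :=
      Real.strictMonoOn_tan.monotoneOn ⟨by linarith, by linarith⟩
        ⟨by linarith [hlt.1], by linarith [hlt.2]⟩ hc
    rw [Real.tan_pi_div_four] at h3
    linarith

private lemma pointwise {a b c d : ℂ} {θ : ℝ} (h0 : 0 < θ) (h1 : θ ≤ 1 / 2) (ha : a ≠ 0)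
    (hb : b ≠ 0) (hc : c ≠ 0) (hd : d ≠ 0)
    (h : b * a = exp (2 * Real.pi * I * (θ : ℂ)) * (c * d)) :
    |(arg b + arg a - arg c - arg d - 2 * Real.pi * θ) / (2 * Real.pi)| ≤ 2 ∧
      (‖a - 1‖ < 1 / 2 → ‖b - 1‖ < 1 / 2 → ‖c - 1‖ < 1 / 2 → ‖d - 1‖ < 1 / 2 →
        (arg b + arg a - arg c - arg d - 2 * Real.pi * θ) / (2 * Real.pi) = 0) := by
  have hp := Real.pi_pos
  have hang : ((arg b + arg a : ℝ) : Real.Angle) =
      ((2 * Real.pi * θ + (arg c + arg d) : ℝ) : Real.Angle) := by
    have e1 := Complex.arg_mul_coe_angle hb ha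
    have e2 := Complex.arg_mul_coe_angle (Complex.exp_ne_zero (2 * Real.pi * I * (θ : ℂ)))
      (mul_ne_zero hc hd)
    have e3 := Complex.arg_mul_coe_angle hc hd
    have e4 : ((arg (exp (2 * Real.pi * I * (θ : ℂ))) : ℝ) : Real.Angle) =
        (((2 * Real.pi * I * (θ : ℂ)).im : ℝ) : Real.Angle) := by
      rw [Complex.arg_exp]
      exact Real.Angle.coe_toIocMod _ _
    have e5 : (2 * Real.pi * I * (θ : ℂ)).im = 2 * Real.pi * θ := by
      have : (2 * Real.pi * I * (θ : ℂ)) = ((2 * Real.pi * θ : ℝ) : ℂ) * I := by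
        push_cast; ring
      rw [this]; simp
    rw [e5] at e4
    rw [← h, e1, e4, e3] at e2
    exact e2
  obtain ⟨k, hk⟩ := Real.Angle.angle_eq_iff_two_pi_dvd_sub.1 hang
  have hg : (arg b + arg a - arg c - arg d - 2 * Real.pi * θ) / (2 * Real.pi) = (k : ℝ) := by
    rw [div_eq_iff (by positivity)]
    linarith
  have Aa := abs_le.1 (Complex.abs_arg_le_pi a)
  have Ab := abs_le.1 (Complex.abs_arg_le_pi b)
  have Ac := abs_le.1 (Complex.abs_arg_le_pi c)
  have Ad := abs_le.1 (Complex.abs_arg_le_pi d)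
  have t1 : 0 < 2 * Real.pi * θ := by positivity
  have t2 : 2 * Real.pi * θ ≤ Real.pi := by nlinarith
  rw [hg]
  have hk' : 2 * Real.pi * (k : ℝ) = arg b + arg a - arg c - arg d - 2 * Real.pi * θ := by
    linarith
  refine ⟨?_, ?_⟩
  · have u1 : (k : ℝ) < 3 := by
      by_contra hcon
      push Not at hcon
      nlinarith [Aa.1, Aa.2, Ab.1, Ab.2, Ac.1, Ac.2, Ad.1, Ad.2]
    have u2 : (-3 : ℝ) < k := by
      by_contra hcon
      push Not at hcon
      nlinarith [Aa.1, Aa.2, Ab.1, Ab.2, Ac.1, Ac.2, Ad.1, Ad.2]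
    have u3 : k < 3 := by exact_mod_cast u1
    have u4 : -3 < k := by exact_mod_cast u2
    rw [abs_le]
    constructor
    · have : (-2 : ℤ) ≤ k := by omega
      exact_mod_cast this
    · have : k ≤ 2 := by omega
      exact_mod_cast this
  · intro qa qb qc qd
    have Ba := abs_lt.1 (arg_small qa)
    have Bb := abs_lt.1 (arg_small qb)
    have Bc := abs_lt.1 (arg_small qc)
    have Bd := abs_lt.1 (arg_small qd)
    have u1 : (k : ℝ) < 1 := by
      by_contra hcon
      push Not at hcon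
      nlinarith [Ba.1, Ba.2, Bb.1, Bb.2, Bc.1, Bc.2, Bd.1, Bd.2]
    have u2 : (-1 : ℝ) < k := by
      by_contra hcon
      push Not at hcon
      nlinarith [Ba.1, Ba.2, Bb.1, Bb.2, Bc.1, Bc.2, Bd.1, Bd.2]
    have u3 : k < 1 := by exact_mod_cast u1
    have u4 : -1 < k := by exact_mod_cast u2
    have : k = 0 := by omega
    rw [this]; simp

private lemma mp_int {Ω : Type} {_ : MeasurableSpace Ω} {μ : Measure Ω} {σ : Ω → Ω}
    (hσ : MeasurePreserving σ μ μ) {f : Ω → ℝ} (hf : AEStronglyMeasurable f μ) :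
    ∫ z, f (σ z) ∂μ = ∫ z, f z ∂μ := by
  have h := integral_map hσ.aemeasurable (f := f) (by rw [hσ.map_eq]; exact hf)
  rw [hσ.map_eq] at h
  exact h.symm

theorem t_ARG : S_ARG := by
  intro Ω _ μ _ A B τ σ θ hA hB hτ hσ h0 h1 hA0 hB0 hrel
  have hp := Real.pi_pos
  set EA : Set Ω := {z | 1 / 2 ≤ ‖A z - 1‖} with hEA
  set EB : Set Ω := {z | 1 / 2 ≤ ‖B z - 1‖} with hEB
  have mEA : MeasurableSet EA := measurableSet_le measurable_const (hA.sub_const 1).norm
  have mEB : MeasurableSet EB := measurableSet_le measurable_const (hB.sub_const 1).norm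
  have ma : Measurable fun z => arg (A z) := Complex.measurable_arg.comp hA
  have mb : Measurable fun z => arg (B z) := Complex.measurable_arg.comp hB
  have ia : Integrable (fun z => arg (A z)) μ :=
    Integrable.of_bound ma.aestronglyMeasurable Real.pi
      (Filter.Eventually.of_forall fun z => by
        rw [Real.norm_eq_abs]; exact Complex.abs_arg_le_pi _)
  have ib : Integrable (fun z => arg (B z)) μ :=
    Integrable.of_bound mb.aestronglyMeasurable Real.pi
      (Filter.Eventually.of_forall fun z => by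
        rw [Real.norm_eq_abs]; exact Complex.abs_arg_le_pi _)
  have iat : Integrable (fun z => arg (A (σ z))) μ := hσ.integrable_comp_of_integrable ia
  have ibt : Integrable (fun z => arg (B (τ z))) μ := hτ.integrable_comp_of_integrable ib
  have ea : ∫ z, arg (A (σ z)) ∂μ = ∫ z, arg (A z) ∂μ := mp_int hσ ia.1
  have eb : ∫ z, arg (B (τ z)) ∂μ = ∫ z, arg (B z) ∂μ := mp_int hτ ib.1
  have s1 : Integrable (fun z => arg (B (τ z)) + arg (A z)) μ := ibt.add ia
  have s2 : Integrable (fun z => arg (B (τ z)) + arg (A z) - arg (A (σ z))) μ := s1.sub iat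
  have s3 : Integrable (fun z => arg (B (τ z)) + arg (A z) - arg (A (σ z)) - arg (B z)) μ :=
    s2.sub ib
  set g : Ω → ℝ := fun z => (arg (B (τ z)) + arg (A z) - arg (A (σ z)) - arg (B z)
    - 2 * Real.pi * θ) / (2 * Real.pi) with hg
  have ig : ∫ z, g z ∂μ = -θ := by
    rw [hg, integral_div, integral_sub s3 (integrable_const _),
      integral_sub s2 ib, integral_sub s1 iat,
      integral_add ibt ia, ea, eb, integral_const]
    simp only [probReal_univ, smul_eq_mul, one_mul]
    field_simp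
    ring
  set G : Ω → ℝ := fun z => 2 * (EA.indicator 1 z + EB.indicator 1 z + EA.indicator 1 (σ z)
    + EB.indicator 1 (τ z)) with hG
  have iEA : Integrable (EA.indicator (1 : Ω → ℝ)) μ :=
    (integrable_const (1 : ℝ)).indicator mEA
  have iEB : Integrable (EB.indicator (1 : Ω → ℝ)) μ :=
    (integrable_const (1 : ℝ)).indicator mEB
  have iEAs : Integrable (fun z => EA.indicator (1 : Ω → ℝ) (σ z)) μ :=
    hσ.integrable_comp_of_integrable iEA
  have iEBt : Integrable (fun z => EB.indicator (1 : Ω → ℝ) (τ z)) μ :=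
    hτ.integrable_comp_of_integrable iEB
  have eA : ∫ z, EA.indicator (1 : Ω → ℝ) z ∂μ = μ.real EA := integral_indicator_one mEA
  have eB : ∫ z, EB.indicator (1 : Ω → ℝ) z ∂μ = μ.real EB := integral_indicator_one mEB
  have eAs : ∫ z, EA.indicator (1 : Ω → ℝ) (σ z) ∂μ = μ.real EA := by
    rw [← eA]; exact mp_int hσ iEA.1
  have eBt : ∫ z, EB.indicator (1 : Ω → ℝ) (τ z) ∂μ = μ.real EB := by
    rw [← eB]; exact mp_int hτ iEB.1
  have r1 : Integrable (fun z => EA.indicator (1 : Ω → ℝ) z + EB.indicator (1 : Ω → ℝ) z) μ :=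
    iEA.add iEB
  have r2 : Integrable (fun z => EA.indicator (1 : Ω → ℝ) z + EB.indicator (1 : Ω → ℝ) z +
    EA.indicator (1 : Ω → ℝ) (σ z)) μ := r1.add iEAs
  have r3 : Integrable (fun z => EA.indicator (1 : Ω → ℝ) z + EB.indicator (1 : Ω → ℝ) z +
    EA.indicator (1 : Ω → ℝ) (σ z) + EB.indicator (1 : Ω → ℝ) (τ z)) μ := r2.add iEBt
  have IG : ∫ z, G z ∂μ = 4 * (μ.real EA + μ.real EB) := by
    rw [hG, integral_const_mul, integral_add r2 iEBt,
      integral_add r1 iEAs, integral_add iEA iEB, eA, eB, eAs, eBt]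
    ring
  have intG : Integrable G μ := r3.const_mul 2
  have hle : ∀ᵐ z ∂μ, ‖g z‖ ≤ G z := by
    have q1 := hσ.quasiMeasurePreserving.ae hA0
    have q2 := hτ.quasiMeasurePreserving.ae hB0
    filter_upwards [hA0, hB0, hrel, q1, q2] with z z1 z2 z3 z4 z5
    obtain ⟨p1, p2⟩ := pointwise h0 h1 z1 z5 z4 z2 z3
    rw [Real.norm_eq_abs]
    have nn : ∀ (S : Set Ω) (w : Ω), (0 : ℝ) ≤ S.indicator 1 w := fun S w =>
      Set.indicator_nonneg (fun _ _ => zero_le_one) w
    have on : ∀ (S : Set Ω) (w : Ω), w ∈ S → S.indicator (1 : Ω → ℝ) w = 1 := fun S w hw => by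
      rw [Set.indicator_of_mem hw]; rfl
    by_cases c1 : z ∈ EA
    · have := on EA z c1
      simp only [hG]
      have w1 := nn EB z
      have w2 := nn EA (σ z)
      have w3 := nn EB (τ z)
      linarith
    by_cases c2 : z ∈ EB
    · have := on EB z c2
      simp only [hG]
      have w1 := nn EA z
      have w2 := nn EA (σ z)
      have w3 := nn EB (τ z)
      linarith
    by_cases c3 : σ z ∈ EA
    · have := on EA (σ z) c3
      simp only [hG]
      have w1 := nn EA z
      have w2 := nn EB z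
      have w3 := nn EB (τ z)
      linarith
    by_cases c4 : τ z ∈ EB
    · have := on EB (τ z) c4
      simp only [hG]
      have w1 := nn EA z
      have w2 := nn EB z
      have w3 := nn EA (σ z)
      linarith
    have e0 : g z = 0 := by
      refine p2 ?_ ?_ ?_ ?_
      · by_contra hc; exact c1 (not_lt.1 hc)
      · by_contra hc; exact c4 (not_lt.1 hc)
      · by_contra hc; exact c3 (not_lt.1 hc)
      · by_contra hc; exact c2 (not_lt.1 hc)
    rw [e0, abs_zero]
    simp only [hG]
    have w1 := nn EA z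
    have w2 := nn EB z
    have w3 := nn EA (σ z)
    have w4 := nn EB (τ z)
    linarith
  have fin := norm_integral_le_of_norm_le intG hle
  rw [ig, IG, norm_neg, Real.norm_eq_abs, abs_of_pos h0] at fin
  exact fin

end Q83.BL
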